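import Pool.Agent.ELM.Half

/-!
# Equality of the boundary entropy and the asymptotic entropy for non-discrete groups

Mathematical content. Let `θ` be irrational and `T` the rotation by `θ`. For a positive density `w`
on the circle let `a` be the involution which moves every point by half of the mass of `w`. If `w`
has a high peak at `0` then `a` contracts everything outside a small arc `U` strongly. Let
`S = a T a`, `G` the group generated by `T` and `S`, and `μ` the uniform measure on `T`, `S` and
their inverses.

The stationary measure is the law of `ξ = T^{k_0} a T^{k_1} a ...` or of `a ξ`, where the exponents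
are independent with law `3^{-|k|}`, `k ≠ 0`. If this coding of the boundary of the free group is
injective, then the Radon-Nikodym derivatives of the stationary measure are `3` and `1/3`, and the
boundary entropy is `(log 3)/2`, the asymptotic entropy of the simple random walk on the free
group of rank two.

In a family `w_t = w + t_0 ψ_0 + t_1 ψ_1 + ...` of densities the derivative of `ξ` with respect to
`t_i` is a sum over the orbit of `ξ` of the values of `ψ_i`. The number of prefixes of length `n`
is at most exponential with a fixed base, but the contraction is as strong as we like. So in the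
direction `t_i` only few parameters have two codes with the same limit and with different
derivatives. By Baire, for most parameters two codes with the same limit have the same derivatives
in all directions, i.e. the same atomic functional on the functions `ψ_i`. The atoms are orbit
points. This shows first that the stabilisers of almost all points are trivial, and then that the
coding is injective. Most groups are not conjugate to subgroups of finite covers of `PGL₂(ℝ)`.
-/

set_option autoImplicit false

namespace Pool.Agent.Results.MP_3b81bf_an.EntropyEquality

open Pool.Agent.ELM

theorem result (θ : ℝ) (hθ : Irrational θ) :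
    ∃ O : Set C(UnitAddCircle, ℝ), IsOpen O ∧ O.Nonempty ∧ (∀ w ∈ O, ∀ x, 0 < w x) ∧
      ∀ w ∈ O, ∀ ε > 0, ∃ w' : C(UnitAddCircle, ℝ), ‖w' - w‖ < ε ∧
        AnalyticOnNhd ℝ (fun x : ℝ => w' (x : UnitAddCircle)) Set.univ ∧
        ∃ a : Homeo, IsHalf w' a ∧
          IsCounterexample (Subgroup.closure {rot θ, a * rot θ * a}) ∧
          (∀ g ∈ Subgroup.closure {rot θ, a * rot θ * a}, IsAnalytic g) ∧
          ∀ k : ℕ, 1 ≤ k → ∀ h : Homeo,
            ∃ g ∈ Subgroup.closure {rot θ, a * rot θ * a}, ¬ IsMoeb k (h * g * h⁻¹) := by
  obtain ⟨O, hO, hne, hpos, h⟩ := Fan.exists_open θ hθ
  refine ⟨O, hO, hne, hpos, fun w hw ε hε => ?_⟩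
  obtain ⟨A, hA⟩ := h w hw ε hε
  obtain ⟨t, h1, h2, h3⟩ := A.exists_param
  refine ⟨A.dens t, ?_, A.dens_ana t, A.F.aH t, A.isHalf t, h1, h2, h3⟩
  rw [ContinuousMap.norm_lt_iff _ hε]
  intro x
  exact hA t x

end Pool.Agent.Results.MP_3b81bf_an.EntropyEquality
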